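import Mathlib
import Pool.Agent.Q74.Gap.Final

/-! # MP_346ebc_an: the scaled gap potential bound for the Hurewicz homomorphism on loops

The estimate `|Hur(f)| ≤ C ε ∬_{d(f(y),f(x)) ≥ ε} |y-x|^{-2}` holds for `m = 1` and every compact Riemannian
manifold, and with an explicit constant for the degree of every Lipschitz circle valued map. -/

set_option autoImplicit false

open MeasureTheory Set Filter Topology Bundle
open scoped ENNReal Manifold ContDiff
open Pool.Agent.Q74.Gap

namespace Pool.Agent.Results.MP_346ebc_an.ScaledGap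

/-- The explicit bound for Lipschitz circle valued maps. -/
theorem lip_version {N : Type*} [PseudoEMetricSpace N] (g : N → AddCircle (1 : ℝ)) (L : ℝ) (hL : 0 < L)
    (hg : ∀ x y, edist (g x) (g y) ≤ ENNReal.ofReal L * edist x y) (ε : ℝ) (hε : 0 < ε) (hεL : 10 * L * ε ≤ 1)
    (f : Circle → N) (hf : Continuous f) (u : ℝ → ℝ) (hu : Continuous u)
    (hgu : ∀ t, ((u t : ℝ) : AddCircle (1 : ℝ)) = g (f (Circle.exp t))) :
    ENNReal.ofReal |u (2 * Real.pi) - u 0| ≤ ENNReal.ofReal (5120 / 3 * L) * gapEnergy ε f := by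
  have hpi := Real.pi_pos
  set K : ℝ≥0∞ := ENNReal.ofReal (1 / L) with hK
  have hKtop : K ≠ ⊤ := ENNReal.ofReal_ne_top
  set D : N → N → ℝ := fun x y => (min (edist x y) K).toReal with hD
  have hDof : ∀ x y, ENNReal.ofReal (D x y) = min (edist x y) K := fun x y =>
    ENNReal.ofReal_toReal (ne_top_of_le_ne_top hKtop (min_le_right _ _))
  have hgD : ∀ x y, ‖g x - g y‖ ≤ L * D x y := by
    intro x y
    have h1 : ENNReal.ofReal ‖g x - g y‖ ≤ ENNReal.ofReal (L * D x y) := by
      rw [ENNReal.ofReal_mul hL.le, hDof]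
      rcases le_total (edist x y) K with h | h
      · rw [min_eq_left h]
        refine le_trans (le_of_eq ?_) (hg x y)
        rw [edist_eq_enorm_sub, ← ofReal_norm]
      · rw [min_eq_right h, hK, ← ENNReal.ofReal_mul hL.le]
        refine ENNReal.ofReal_le_ofReal ?_
        rw [mul_one_div_cancel hL.ne']
        have := abs_dl_le (g y) (g x)
        rw [abs_dl] at this
        linarith
    exact (ENNReal.ofReal_le_ofReal_iff (mul_nonneg hL.le ENNReal.toReal_nonneg)).1 h1
  have hgc : Continuous g := by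
    have h2 : LipschitzWith (Real.toNNReal L) g := fun x y => hg x y
    exact h2.continuous
  have hper : ∀ t : ℝ, f (Circle.exp (2 * Real.pi * (t + 1))) = f (Circle.exp (2 * Real.pi * t)) := by
    intro t
    have : Circle.exp (2 * Real.pi * (t + 1)) = Circle.exp (2 * Real.pi * t) := by
      rw [mul_add, mul_one]; exact Circle.periodic_exp _
    rw [this]
  have hcc : Continuous fun t : ℝ => g (f (Circle.exp (2 * Real.pi * t))) :=
    (hgc.comp hf).comp (Circle.exp.continuous.comp (continuous_const.mul continuous_id))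
  obtain ⟨n0, hn0⟩ := gap_power D (fun t => f (Circle.exp (2 * Real.pi * t))) g L hL hgD hcc hper ε hε hεL
  -- a fine mesh for `u`
  have huc := (isCompact_Icc (a := (0 : ℝ)) (b := 2 * Real.pi)).uniformContinuousOn_of_continuous hu.continuousOn
  rw [Metric.uniformContinuousOn_iff] at huc
  obtain ⟨δ, hδ, huc⟩ := huc (1 / 2) (by norm_num)
  obtain ⟨n1, hn1⟩ := exists_pow_lt_of_lt_one (show 0 < δ / (2 * Real.pi) by positivity)
    (show (1 / 2 : ℝ) < 1 by norm_num)
  set n := max n0 n1 with hn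
  have hp : (0 : ℝ) < 2 ^ n := by positivity
  have hn1' : 2 * Real.pi * (1 / 2 ^ n) < δ := by
    have : (1 : ℝ) / 2 ^ n < δ / (2 * Real.pi) := by
      calc (1 : ℝ) / 2 ^ n = (1 / 2) ^ n := by rw [div_pow, one_pow]
        _ ≤ (1 / 2) ^ n1 := pow_le_pow_of_le_one (by norm_num) (by norm_num) (le_max_right _ _)
        _ < _ := hn1
    rw [lt_div_iff₀ (by positivity)] at this
    linarith
  have hdl : ∀ i : ℕ, i < 2 ^ n → dl (g (f (Circle.exp (2 * Real.pi * ((i : ℝ) / 2 ^ n)))))
      (g (f (Circle.exp (2 * Real.pi * (((i : ℝ) + 1) / 2 ^ n))))) =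
      u (2 * Real.pi * (((i + 1 : ℕ) : ℝ) / 2 ^ n)) - u (2 * Real.pi * ((i : ℝ) / 2 ^ n)) := by
    intro i hi
    have hi' : (i : ℝ) + 1 ≤ 2 ^ n := by exact_mod_cast hi
    have h1 : ((i : ℝ) + 1) / 2 ^ n ≤ 1 := (div_le_one hp).2 hi'
    have h0 : 0 ≤ (i : ℝ) / 2 ^ n := by positivity
    have h3 : ((i : ℝ) + 1) / 2 ^ n = i / 2 ^ n + 1 / 2 ^ n := by ring
    have h4 : (0 : ℝ) < 1 / 2 ^ n := by positivity
    have hs := huc (2 * Real.pi * (((i : ℝ) + 1) / 2 ^ n)) ⟨by positivity, by nlinarith⟩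
      (2 * Real.pi * ((i : ℝ) / 2 ^ n)) ⟨by positivity, by nlinarith⟩ (by
        rw [Real.dist_eq, h3, mul_add, add_sub_cancel_left, abs_of_pos (by positivity)]
        exact hn1')
    rw [Real.dist_eq] at hs
    unfold dl
    rw [← hgu, ← hgu, ← AddCircle.coe_sub, rep_eq hs]
    push_cast
    rfl
  have hsum : dsum (fun t => g (f (Circle.exp (2 * Real.pi * t)))) n = u (2 * Real.pi) - u 0 := by
    unfold dsum
    rw [Finset.sum_congr rfl fun i hi => hdl i (Finset.mem_range.1 hi),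
      Finset.sum_range_sub (fun i : ℕ => u (2 * Real.pi * ((i : ℝ) / 2 ^ n)))]
    push_cast
    rw [div_self hp.ne', mul_one, zero_div, mul_zero]
  have h5 := hn0 n (le_max_left _ _)
  rw [hsum] at h5
  refine h5.trans ((mul_le_mul' le_rfl (unit_le_circE fun z w => ε ≤ D (f z) (f w))).trans ?_)
  refine circE_le hε f _ (fun z w hzw => ?_) (by positivity)
  calc ENNReal.ofReal ε ≤ ENNReal.ofReal (D (f z) (f w)) := ENNReal.ofReal_le_ofReal hzw
    _ = min (edist (f z) (f w)) K := hDof _ _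
    _ ≤ edist (f z) (f w) := min_le_left _ _

/-- A family of `b` one-forms on the manifold `M` of dimension `d`. -/
abbrev FormFamily (d b : ℕ) (M : Type*) [TopologicalSpace M] [ChartedSpace (EuclideanSpace ℝ (Fin d)) M] :=
  Fin b → ∀ x : M, TangentSpace (𝓡 d) x →L[ℝ] ℝ

/-- The estimate for the family `α` with constants `C, ε₀`: for `0 < ε < ε₀`, continuous `f : S¹ → M` and
`C¹` maps `f'` homotopic to `f`,
`|∫_{S¹} f'^* α j| ≤ C · ε ∬_{d(f(y),f(x)) ≥ ε} |y-x|^{-2}` for every `j`. -/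
def HurBound {d b : ℕ} {M : Type*} [EMetricSpace M] [ChartedSpace (EuclideanSpace ℝ (Fin d)) M]
    (α : FormFamily d b M) (C ε₀ : ℝ) : Prop :=
  ∀ ε : ℝ, 0 < ε → ε < ε₀ → ∀ f f' : C(Circle, M), ContMDiff (𝓡 1) (𝓡 d) 1 f' → f.Homotopic f' →
    ∀ j, ENNReal.ofReal |loopIntegral (𝓡 d) (α j) f'| ≤ ENNReal.ofReal C * gapEnergy ε f

/-- The explicit degree estimate for the map `g : N → ℝ/ℤ` and the constant `L`: if `10 L ε ≤ 1` then for every
continuous `f : S¹ → N` and every continuous real lift `u` of `g ∘ f`, the degree is bounded by `(5120/3) L` times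
the energy. -/
def DegBound {N : Type*} [PseudoEMetricSpace N] (g : N → AddCircle (1 : ℝ)) (L : ℝ) : Prop :=
  ∀ ε : ℝ, 0 < ε → 10 * L * ε ≤ 1 → ∀ f : Circle → N, Continuous f → ∀ u : ℝ → ℝ, Continuous u →
    (∀ t, ((u t : ℝ) : AddCircle (1 : ℝ)) = g (f (Circle.exp t))) →
      ENNReal.ofReal |u (2 * Real.pi) - u 0| ≤ ENNReal.ofReal (5120 / 3 * L) * gapEnergy ε f

/-- The first part, for `M` a compact `C^∞` Riemannian manifold. -/
def ManifoldPart (d b : ℕ) (M : Type*) [EMetricSpace M] [ChartedSpace (EuclideanSpace ℝ (Fin d)) M] : Prop :=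
  ∀ [IsManifold (𝓡 d) ∞ M] [RiemannianBundle (fun x : M => TangentSpace (𝓡 d) x)]
    [IsContMDiffRiemannianBundle (𝓡 d) ∞ (EuclideanSpace ℝ (Fin d)) (fun x : M => TangentSpace (𝓡 d) x)]
    [IsRiemannianManifold (𝓡 d) M] [CompactSpace M] (α : FormFamily d b M), (∀ j, ClosedForm (𝓡 d) (α j)) →
      ∃ C > 0, ∃ ε₀ > 0, HurBound α C ε₀

theorem manifold_part (d b : ℕ) (M : Type*) [EMetricSpace M] [ChartedSpace (EuclideanSpace ℝ (Fin d)) M] :
    ManifoldPart d b M := by
  intro _ _ _ _ _ α hα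
  choose C hC ε0 hε0 hmain using fun j => main_single (hα j)
  refine ⟨∑ j, C j + 1, by
    have := Finset.sum_nonneg fun j (_ : j ∈ Finset.univ) => (hC j).le
    positivity, 1 / (∑ j, 1 / ε0 j + 1), ?_, fun ε hε hεε f f' hf' hH j => ?_⟩
  · have := Finset.sum_nonneg fun j (_ : j ∈ Finset.univ) => (one_div_pos.2 (hε0 j)).le
    positivity
  · have hs := Finset.sum_nonneg fun j (_ : j ∈ Finset.univ) => (one_div_pos.2 (hε0 j)).le
    have hle : 1 / ε0 j ≤ ∑ j, 1 / ε0 j :=
      Finset.single_le_sum (f := fun j => 1 / ε0 j) (fun j _ => (one_div_pos.2 (hε0 j)).le) (Finset.mem_univ j)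
    have hCle : C j ≤ ∑ j, C j :=
      Finset.single_le_sum (f := C) (fun j _ => (hC j).le) (Finset.mem_univ j)
    have h1 : ε < ε0 j := by
      refine hεε.trans_le ?_
      rw [div_le_iff₀ (by positivity)]
      have h2 : 1 / ε0 j * ε0 j = 1 := one_div_mul_cancel (hε0 j).ne'
      nlinarith [hε0 j]
    refine (hmain j ε hε h1 f f' hf' hH).trans (mul_le_mul' (ENNReal.ofReal_le_ofReal ?_) le_rfl)
    linarith

/-- **Answer to Q1 (true).** Part 1: for every compact Riemannian manifold `M` and every finite family of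
smooth closed `1`-forms `α j` there are `C, ε₀ > 0` with
`|∫_{S¹} f'^* α j| ≤ C · ε ∬_{d(f(y),f(x)) ≥ ε} |y-x|^{-2}` for all `ε < ε₀`, all continuous `f : S¹ → M` and all
`C¹` maps `f'` homotopic to `f`. Part 2: an explicit form for `L`-Lipschitz maps `g` of an arbitrary space to
`ℝ/ℤ`: the degree of `g ∘ f` is at most `(5120/3) L` times the energy if `10 L ε ≤ 1`. -/
theorem result.{u, v} :
    (∀ (d b : ℕ) (M : Type u) [EMetricSpace M] [ChartedSpace (EuclideanSpace ℝ (Fin d)) M],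
      ManifoldPart d b M) ∧
    (∀ (N : Type v) [PseudoEMetricSpace N] (g : N → AddCircle (1 : ℝ)) (L : ℝ), 0 < L →
      (∀ x y, edist (g x) (g y) ≤ ENNReal.ofReal L * edist x y) → DegBound g L) :=
  ⟨fun d b M _ _ => manifold_part d b M, fun _ _ g L hL hg ε hε hεL f hf u hu hgu =>
    lip_version g L hL hg ε hε hεL f hf u hu hgu⟩

end Pool.Agent.Results.MP_346ebc_an.ScaledGap
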